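import Mathlib

open Filter Topology

set_option autoImplicit false

namespace Pool.Agent.Results.MP_68f07c_an.TreeCounterexample

/-- The closed linear span of a sequence. -/
def closedSpan {V : Type*} [NormedAddCommGroup V] [NormedSpace ℝ V] (u : ℕ → V) :
    Submodule ℝ V :=
  (Submodule.span ℝ (Set.range u)).topologicalClosure

/-- `u` is a basic sequence: a Schauder basis of its closed linear span. -/
def IsBasic {V : Type*} [NormedAddCommGroup V] [NormedSpace ℝ V] (u : ℕ → V) : Prop :=
  ∀ y ∈ closedSpan u, ∃! a : ℕ → ℝ,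
    Tendsto (fun n => ∑ i ∈ Finset.range n, a i • u i) atTop (𝓝 y)

/-- The series with terms `a i • u i` converges. -/
def SeriesConverges {V : Type*} [NormedAddCommGroup V] [NormedSpace ℝ V] (a : ℕ → ℝ)
    (u : ℕ → V) : Prop :=
  ∃ y, Tendsto (fun n => ∑ i ∈ Finset.range n, a i • u i) atTop (𝓝 y)

/-- Two sequences are equivalent: for every scalar sequence `a`, the series with terms
`a i • u i` converges exactly when the series with terms `a i • v i` converges. -/
def Equivalent {V W : Type*} [NormedAddCommGroup V] [NormedSpace ℝ V] [NormedAddCommGroup W]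
    [NormedSpace ℝ W] (u : ℕ → V) (v : ℕ → W) : Prop :=
  ∀ a : ℕ → ℝ, SeriesConverges a u ↔ SeriesConverges a v

/-- The pre-annihilator of a set of functionals. -/
def preAnnihilator {V : Type*} [NormedAddCommGroup V] [NormedSpace ℝ V] (A : Set (V →L[ℝ] ℝ)) :
    Submodule ℝ V where
  carrier := {x | ∀ g ∈ A, g x = 0}
  add_mem' := fun ha hb g hg => by rw [map_add, ha g hg, hb g hg, add_zero]
  zero_mem' := fun g _ => map_zero g
  smul_mem' := fun c x hx g hg => by rw [map_smul, hx g hg, smul_zero]

section General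

variable {V : Type*} [NormedAddCommGroup V] [NormedSpace ℝ V]

lemma mem_closedSpan (u : ℕ → V) (n : ℕ) : u n ∈ closedSpan u :=
  Submodule.le_topologicalClosure _ (Submodule.subset_span ⟨n, rfl⟩)

lemma eq_zero_of_mem_closedSpan (u : ℕ → V) (g : V →L[ℝ] ℝ) (h : ∀ n, g (u n) = 0) :
    ∀ y ∈ closedSpan u, g y = 0 := by
  intro y hy
  have h1 : closedSpan u ≤ LinearMap.ker (g : V →ₗ[ℝ] ℝ) := by
    refine Submodule.topologicalClosure_minimal _ ?_ g.isClosed_ker
    rw [Submodule.span_le]
    rintro _ ⟨n, rfl⟩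
    exact h n
  exact h1 hy

/-- Coefficients are determined by biorthogonal functionals. -/
lemma coeff_eq (u : ℕ → V) (φ : ℕ → V →L[ℝ] ℝ) (h : ∀ i j, φ i (u j) = if i = j then 1 else 0)
    (y : V) (a : ℕ → ℝ)
    (ha : Tendsto (fun n => ∑ i ∈ Finset.range n, a i • u i) atTop (𝓝 y)) :
    a = fun i => φ i y := by
  funext k
  have h1 : Tendsto (fun n => φ k (∑ i ∈ Finset.range n, a i • u i)) atTop (𝓝 (φ k y)) :=
    ((φ k).continuous.tendsto _).comp ha
  refine tendsto_nhds_unique (tendsto_const_nhds.congr' ?_) h1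
  filter_upwards [eventually_gt_atTop k] with n hn
  rw [map_sum, Finset.sum_eq_single k]
  · simp [h]
  · intro j _ hj
    simp [h, Ne.symm hj]
  · intro hk
    exact absurd (Finset.mem_range.2 hn) hk

/-- A criterion for basic sequences. -/
lemma isBasic_of_bound (u : ℕ → V) (φ : ℕ → V →L[ℝ] ℝ)
    (h : ∀ i j, φ i (u j) = if i = j then 1 else 0)
    (hb : ∀ y ∈ Submodule.span ℝ (Set.range u), ∀ m,
      ‖∑ i ∈ Finset.range m, φ i y • u i‖ ≤ ‖y‖) : IsBasic u := by
  intro y hy
  refine ⟨fun i => φ i y, ?_, fun a ha => coeff_eq u φ h y a ha⟩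
  let S : ℕ → V →L[ℝ] V := fun m => ∑ i ∈ Finset.range m, (φ i).smulRight (u i)
  have hS : ∀ m z, S m z = ∑ i ∈ Finset.range m, φ i z • u i := by
    intro m z
    simp [S]
  have hb' : ∀ m, ∀ z ∈ closedSpan u, ‖S m z‖ ≤ ‖z‖ := by
    intro m z hz
    have hcl : IsClosed {z : V | ‖S m z‖ ≤ ‖z‖} :=
      isClosed_le (S m).continuous.norm continuous_norm
    have hsub : (Submodule.span ℝ (Set.range u) : Set V) ⊆ {z : V | ‖S m z‖ ≤ ‖z‖} := by
      intro w hw
      change ‖S m w‖ ≤ ‖w‖
      rw [hS]
      exact hb w hw m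
    exact closure_minimal hsub hcl hz
  have hev : ∀ z ∈ Submodule.span ℝ (Set.range u), ∀ᶠ m in atTop, S m z = z := by
    intro z hz
    induction hz using Submodule.span_induction with
    | mem z hz =>
      obtain ⟨k, rfl⟩ := hz
      filter_upwards [eventually_gt_atTop k] with n hn
      rw [hS, Finset.sum_eq_single k]
      · simp [h]
      · intro j _ hj
        simp [h, hj]
      · intro hk
        exact absurd (Finset.mem_range.2 hn) hk
    | zero => exact Eventually.of_forall fun m => map_zero _
    | add a b _ _ ha hb =>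
      filter_upwards [ha, hb] with m h1 h2
      rw [map_add, h1, h2]
    | smul c a _ ha =>
      filter_upwards [ha] with m h1
      rw [map_smul, h1]
  simp_rw [← hS]
  rw [Metric.tendsto_atTop]
  intro ε hε
  have hy' : y ∈ closure (Submodule.span ℝ (Set.range u) : Set V) := hy
  obtain ⟨w, hw, hwd⟩ := Metric.mem_closure_iff.1 hy' (ε / 2) (half_pos hε)
  obtain ⟨N, hN⟩ := eventually_atTop.1 (hev w hw)
  refine ⟨N, fun n hn => ?_⟩
  rw [dist_eq_norm] at hwd ⊢
  have hw' : w ∈ closedSpan u := Submodule.le_topologicalClosure _ hw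
  have h1 : S n y - y = S n (y - w) - (y - w) := by
    rw [map_sub, hN n hn]
    abel
  rw [h1]
  calc ‖S n (y - w) - (y - w)‖ ≤ ‖S n (y - w)‖ + ‖y - w‖ := norm_sub_le _ _
    _ ≤ ‖y - w‖ + ‖y - w‖ := by
        gcongr
        exact hb' n _ (Submodule.sub_mem _ hy hw')
    _ < ε := by linarith

end General

section L1

variable {I : Type*}

/-- The real space `ℓ¹(I)`. -/
abbrev L1 (I : Type*) := lp (fun _ : I => ℝ) 1

lemma summable_abs (x : L1 I) : Summable fun i => |x i| := by
  have := (lp.memℓp x).summable (by simp)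
  simpa using this

lemma norm_eq (x : L1 I) : ‖x‖ = ∑' i, |x i| := by
  rw [lp.norm_eq_tsum_rpow (by simp)]
  simp

open Classical in
/-- The unit vectors of `ℓ¹(I)`. -/
noncomputable def e (i : I) : L1 I := lp.single 1 i 1

lemma e_self (i : I) : e i i = 1 := by
  classical
  simp [e]

lemma e_ne {i j : I} (h : j ≠ i) : e i j = 0 := by
  classical
  simp [e, h]

lemma norm_e (i : I) : ‖e i‖ = 1 := by
  classical
  rw [e, lp.norm_single (by simp)]
  simp

lemma hasSum_e (x : L1 I) : HasSum (fun i => x i • e i) x := by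
  classical
  have h := lp.hasSum_single (p := 1) (by simp) x
  have h2 : (fun i => x i • e i) = fun i => lp.single 1 i (x i) := by
    funext i
    rw [e, ← lp.single_smul, smul_eq_mul, mul_one]
  rw [h2]
  exact h

lemma summable_mul (ψ : I → ℝ) (C : ℝ) (h : ∀ i, |ψ i| ≤ C) (x : L1 I) :
    Summable fun i => ψ i * x i := by
  refine Summable.of_norm_bounded ((summable_abs x).mul_left C) fun i => ?_
  rw [norm_mul, Real.norm_eq_abs, Real.norm_eq_abs]
  exact mul_le_mul_of_nonneg_right (h i) (abs_nonneg _)

/-- The functional `x ↦ ∑ i, ψ i * x i` on `ℓ¹(I)`, for bounded `ψ`. -/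
noncomputable def functional (ψ : I → ℝ) (C : ℝ) (h : ∀ i, |ψ i| ≤ C) : L1 I →L[ℝ] ℝ :=
  LinearMap.mkContinuous
    { toFun := fun x => ∑' i, ψ i * x i
      map_add' := fun x y => by
        rw [← (summable_mul ψ C h x).tsum_add (summable_mul ψ C h y)]
        refine tsum_congr fun i => ?_
        rw [lp.coeFn_add, Pi.add_apply, mul_add]
      map_smul' := fun c x => by
        rw [RingHom.id_apply, smul_eq_mul, ← tsum_mul_left]
        refine tsum_congr fun i => ?_
        rw [lp.coeFn_smul, Pi.smul_apply, smul_eq_mul]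
        ring } C (fun x => by
      rw [norm_eq, ← tsum_mul_left]
      refine tsum_of_norm_bounded ((summable_abs x).mul_left C).hasSum fun i => ?_
      rw [norm_mul, Real.norm_eq_abs, Real.norm_eq_abs]
      exact mul_le_mul_of_nonneg_right (h i) (abs_nonneg _))

lemma functional_apply (ψ : I → ℝ) (C : ℝ) (h : ∀ i, |ψ i| ≤ C) (x : L1 I) :
    functional ψ C h x = ∑' i, ψ i * x i := rfl

lemma functional_e (ψ : I → ℝ) (C : ℝ) (h : ∀ i, |ψ i| ≤ C) (i : I) :
    functional ψ C h (e i) = ψ i := by
  rw [functional_apply, tsum_eq_single i]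
  · rw [e_self, mul_one]
  · intro j hj
    rw [e_ne hj, mul_zero]

/-- The norm of a functional on `ℓ¹(I)` is bounded by its values on the unit vectors. -/
lemma norm_le_of_e (g : L1 I →L[ℝ] ℝ) (C : ℝ) (hC : 0 ≤ C) (h : ∀ i, |g (e i)| ≤ C) :
    ‖g‖ ≤ C := by
  refine ContinuousLinearMap.opNorm_le_bound _ hC fun x => ?_
  have h1 : HasSum (fun i => x i * g (e i)) (g x) := by
    have := (hasSum_e x).mapL g
    simpa using this
  rw [← h1.tsum_eq, norm_eq, ← tsum_mul_left]
  refine tsum_of_norm_bounded ((summable_abs x).mul_left C).hasSum fun i => ?_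
  rw [norm_mul, Real.norm_eq_abs, Real.norm_eq_abs, mul_comm]
  exact mul_le_mul_of_nonneg_right (h i) (abs_nonneg _)

lemma ext_e (g g' : L1 I →L[ℝ] ℝ) (h : ∀ i, g (e i) = g' (e i)) : g = g' := by
  have h1 : ‖g - g'‖ ≤ 0 := by
    refine norm_le_of_e _ 0 le_rfl fun i => ?_
    rw [sub_apply, h, sub_self, abs_zero]
  exact sub_eq_zero.1 (norm_le_zero_iff.1 h1)

lemma abs_apply_e_le (g : L1 I →L[ℝ] ℝ) (i : I) : |g (e i)| ≤ ‖g‖ := by
  have := g.le_opNorm (e i)
  rwa [norm_e, mul_one] at this

end L1

/-! ### The binary tree of finite sets -/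

/-- Branches: strictly increasing sequences of integers. -/
abbrev Branch := {a : ℕ → ℕ // StrictMono a}

/-- The nodes of a branch: the finite sets of its first terms, coded in binary. -/
def node (a : Branch) (k : ℕ) : ℕ := ∑ i ∈ Finset.range (k + 1), 2 ^ a.1 i

lemma node_strictMono (a : Branch) : StrictMono (node a) := by
  refine strictMono_nat_of_lt_succ fun k => ?_
  rw [node, node, Finset.sum_range_succ _ (k + 1)]
  have : 0 < 2 ^ a.1 (k + 1) := by positivity
  omega

/-- The node `n` lies on the branch `a`. -/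
def OnBranch (a : Branch) (n : ℕ) : Prop := ∃ k, node a k = n

lemma infinite_onBranch (a : Branch) : {n | OnBranch a n}.Infinite := by
  have : {n | OnBranch a n} = Set.range (node a) := by
    ext n
    simp [OnBranch]
  rw [this]
  exact Set.infinite_range_of_injective (node_strictMono a).injective

lemma exists_branch (a : Branch) (m M : ℕ) :
    ∃ a' : Branch, ∀ i < M, OnBranch a' i ↔ (i < m ∧ OnBranch a i) := by
  classical
  have hex : ∃ k, m ≤ node a k := ⟨m, (node_strictMono a).le_apply⟩
  set K := Nat.find hex with hK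
  have hK1 : ∀ k, k < K → node a k < m := fun k hk => not_le.1 (Nat.find_min hex hk)
  have hK2 : ∀ k, K ≤ k → m ≤ node a k := fun k hk =>
    (Nat.find_spec hex).trans ((node_strictMono a).monotone hk)
  let b : ℕ → ℕ := fun i => a.1 i + if i < K then 0 else M
  have hb : StrictMono b := by
    refine strictMono_nat_of_lt_succ fun i => ?_
    have : a.1 i < a.1 (i + 1) := a.2 (Nat.lt_succ_self i)
    simp only [b]
    split_ifs <;> omega
  let a' : Branch := ⟨b, hb⟩
  have h1 : ∀ k < K, node a' k = node a k := by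
    intro k hk
    refine Finset.sum_congr rfl fun i hi => ?_
    have : i < K := by
      have := Finset.mem_range.1 hi
      omega
    simp [a', b, this]
  have h2 : ∀ k, K ≤ k → M ≤ node a' k := by
    intro k hk
    have h3 : 2 ^ b k ≤ node a' k :=
      Finset.single_le_sum (f := fun i => 2 ^ a'.1 i) (fun i _ => Nat.zero_le _)
        (Finset.mem_range.2 (Nat.lt_succ_self k))
    have h4 : M ≤ b k := by
      simp only [b, if_neg (not_lt.2 hk)]
      omega
    have h5 : b k < 2 ^ b k := Nat.lt_two_pow_self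
    omega
  refine ⟨a', fun i hi => ⟨?_, ?_⟩⟩
  · rintro ⟨k, hk⟩
    by_cases hkK : k < K
    · rw [h1 k hkK] at hk
      exact ⟨hk ▸ hK1 k hkK, k, hk⟩
    · have := h2 k (not_lt.1 hkK)
      omega
  · rintro ⟨him, k, hk⟩
    have hkK : k < K := by
      by_contra hcon
      have := hK2 k (not_lt.1 hcon)
      omega
    exact ⟨k, by rw [h1 k hkK, hk]⟩

lemma node_eq_sum_image (a : Branch) (k : ℕ) :
    node a k = ∑ j ∈ (Finset.range (k + 1)).image a.1, 2 ^ j := by
  rw [Finset.sum_image fun i _ j _ h => a.2.injective h, node]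

/-- If two branches first differ at `j`, with the smaller value on the first, then a common
node is one of the first `j` nodes of the first. -/
lemma common_node (a b : Branch) (j : ℕ) (hlt : a.1 j < b.1 j) (heq : ∀ i < j, a.1 i = b.1 i)
    (k l : ℕ) (h : node a k = node b l) : k < j := by
  by_contra hcon
  push Not at hcon
  have h1 : (Finset.range (k + 1)).image a.1 = (Finset.range (l + 1)).image b.1 := by
    apply Finset.geomSum_injective (n := 2) le_rfl
    change ∑ i ∈ (Finset.range (k + 1)).image a.1, 2 ^ i =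
      ∑ i ∈ (Finset.range (l + 1)).image b.1, 2 ^ i
    rw [← node_eq_sum_image, ← node_eq_sum_image, h]
  have h2 : a.1 j ∈ (Finset.range (l + 1)).image b.1 := by
    rw [← h1]
    exact Finset.mem_image_of_mem _ (Finset.mem_range.2 (by omega))
  obtain ⟨i, _, hi⟩ := Finset.mem_image.1 h2
  rcases lt_or_ge i j with hij | hij
  · have h3 := heq i hij
    have h4 := a.2 hij
    omega
  · have := b.2.monotone hij
    omega

lemma finite_common (a b : Branch) (h : a ≠ b) : {n | OnBranch a n ∧ OnBranch b n}.Finite := by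
  classical
  have hex : ∃ j, a.1 j ≠ b.1 j := by
    by_contra hcon
    push Not at hcon
    exact h (Subtype.ext (funext hcon))
  set j := Nat.find hex with hj
  have hj1 : a.1 j ≠ b.1 j := Nat.find_spec hex
  have hj2 : ∀ i < j, a.1 i = b.1 i := fun i hi => by
    have := Nat.find_min hex hi
    push Not at this
    exact this
  refine ((Finset.range j).image (node a) ∪ (Finset.range j).image (node b)).finite_toSet.subset ?_
  rintro n ⟨⟨k, hk⟩, l, hl⟩
  simp only [Finset.coe_union, Finset.coe_image, Finset.coe_range, Set.mem_union, Set.mem_image,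
    Set.mem_Iio]
  rcases lt_or_gt_of_ne hj1 with h1 | h1
  · exact Or.inl ⟨k, common_node a b j h1 hj2 k l (hk.trans hl.symm), hk⟩
  · exact Or.inr ⟨l, common_node b a j h1 (fun i hi => (hj2 i hi).symm) l k
      (hl.trans hk.symm), hl⟩

/-- The base branch `0, 1, 2, ...`, with nodes `2 ^ (k + 1) - 1`. -/
def base : Branch := ⟨id, strictMono_id⟩

lemma node_base (k : ℕ) : node base k + 1 = 2 ^ (k + 1) := by
  induction k with
  | zero => simp [node, base]
  | succ k ih =>
    rw [node, Finset.sum_range_succ]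
    rw [node] at ih
    simp only [base, id] at ih ⊢
    rw [pow_succ 2 (k + 1)]
    omega

/-! ### The example -/

/-- The index set: unit vectors for the nodes, and unit vectors for the branches. -/
abbrev Idx := ℕ ⊕ Branch

open Classical in
/-- The values of the functional `f n`. -/
noncomputable def psi (n : ℕ) : Idx → ℝ
  | Sum.inl m => if n = m then 1 else 0
  | Sum.inr a => if OnBranch a n then 1 else 0

lemma abs_psi_le (n : ℕ) (i : Idx) : |psi n i| ≤ 1 := by
  rcases i with m | a
  · simp only [psi]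
    split_ifs <;> simp
  · simp only [psi]
    split_ifs <;> simp

/-- The vectors `x n`. -/
noncomputable def xx (n : ℕ) : L1 Idx := e (Sum.inl n)

/-- The functionals `f n`. -/
noncomputable def ff (n : ℕ) : L1 Idx →L[ℝ] ℝ := functional (psi n) 1 (abs_psi_le n)

lemma ff_e (n : ℕ) (i : Idx) : ff n (e i) = psi n i := functional_e _ _ _ _

lemma biorth (i j : ℕ) : ff i (xx j) = if i = j then 1 else 0 := ff_e _ _

lemma inr_eq_zero (y : L1 Idx) (hy : y ∈ closedSpan xx) (a : Branch) : y (Sum.inr a) = 0 := by
  classical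
  let g : L1 Idx →L[ℝ] ℝ := functional (fun i => if i = Sum.inr a then 1 else 0) 1
    (fun i => by split_ifs <;> simp)
  have hg : ∀ z : L1 Idx, g z = z (Sum.inr a) := by
    intro z
    rw [functional_apply, tsum_eq_single (Sum.inr a)]
    · simp
    · intro j hj
      simp [hj]
  rw [← hg]
  refine eq_zero_of_mem_closedSpan xx g (fun n => ?_) y hy
  rw [hg]
  exact e_ne (by simp)

lemma ff_of_inr (y : L1 Idx) (hy : ∀ a, y (Sum.inr a) = 0) (n : ℕ) : ff n y = y (Sum.inl n) := by
  rw [ff, functional_apply, tsum_eq_single (Sum.inl n)]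
  · simp [psi]
  · intro j hj
    rcases j with m | a
    · have : n ≠ m := fun h => hj (by rw [h])
      simp [psi, this]
    · rw [hy, mul_zero]

lemma isBasic_xx : IsBasic xx := by
  intro y hy
  refine ⟨fun i => ff i y, ?_, fun a ha => coeff_eq xx ff biorth y a ha⟩
  have h0 := inr_eq_zero y hy
  have h1 : HasSum (fun n : ℕ => y (Sum.inl n) • (e (Sum.inl n) : L1 Idx)) y := by
    have h2 := hasSum_e y
    rw [← Function.Injective.hasSum_iff (g := (Sum.inl : ℕ → Idx)) Sum.inl_injective] at h2
    · exact h2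
    · rintro (m | a) hi
      · exact absurd ⟨m, rfl⟩ hi
      · rw [h0, zero_smul]
  have h3 := h1.tendsto_sum_nat
  refine h3.congr fun n => ?_
  refine Finset.sum_congr rfl fun i _ => ?_
  have h4 := ff_of_inr y h0 i
  change y (Sum.inl i) • e (Sum.inl i) = ff i y • xx i
  rw [h4]
  rfl

/-- The evaluation functionals on the dual. -/
noncomputable def ev (n : ℕ) : (L1 Idx →L[ℝ] ℝ) →L[ℝ] ℝ := ContinuousLinearMap.apply ℝ ℝ (xx n)

lemma ev_apply (n : ℕ) (g : L1 Idx →L[ℝ] ℝ) : ev n g = g (xx n) := rfl

lemma sum_apply_inr (c : ℕ → ℝ) (m : ℕ) (a : Branch) :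
    (∑ i ∈ Finset.range m, c i • ff i) (e (Sum.inr a)) =
      ∑ i ∈ Finset.range m, c i * psi i (Sum.inr a) := by
  rw [sum_apply]
  refine Finset.sum_congr rfl fun i _ => ?_
  rw [smul_apply, ff_e, smul_eq_mul]

lemma sum_apply_inl (c : ℕ → ℝ) (m n : ℕ) :
    (∑ i ∈ Finset.range m, c i • ff i) (e (Sum.inl n)) = if n < m then c n else 0 := by
  rw [sum_apply]
  have : ∀ i ∈ Finset.range m, (c i • ff i) (e (Sum.inl n)) = if i = n then c i else 0 := by
    intro i _
    rw [smul_apply, ff_e, smul_eq_mul]
    simp only [psi]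
    split_ifs <;> simp
  rw [Finset.sum_congr rfl this, Finset.sum_ite_eq' (Finset.range m) n]
  simp

lemma isBasic_ff : IsBasic ff := by
  refine isBasic_of_bound ff ev (fun i j => by rw [ev_apply, biorth]; simp [eq_comm]) ?_
  intro g hg m
  -- a representation of `g`
  have hrep : ∃ M, m ≤ M ∧ g = ∑ i ∈ Finset.range M, ev i g • ff i := by
    have : ∃ M₀, ∀ M, M₀ ≤ M → g = ∑ i ∈ Finset.range M, ev i g • ff i := by
      induction hg using Submodule.span_induction with
      | mem z hz =>
        obtain ⟨k, rfl⟩ := hz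
        refine ⟨k + 1, fun M hM => ?_⟩
        rw [Finset.sum_eq_single k]
        · rw [ev_apply, biorth, if_pos rfl, one_smul]
        · intro j _ hj
          rw [ev_apply, biorth, if_neg (Ne.symm hj), zero_smul]
        · intro hk
          exact absurd (Finset.mem_range.2 (by omega)) hk
      | zero => exact ⟨0, fun M _ => by simp⟩
      | add a b _ _ ha hb =>
        obtain ⟨M₁, h1⟩ := ha
        obtain ⟨M₂, h2⟩ := hb
        refine ⟨max M₁ M₂, fun M hM => ?_⟩
        have h1' := h1 M ((le_max_left _ _).trans hM)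
        have h2' := h2 M ((le_max_right _ _).trans hM)
        simp only [map_add, add_smul, Finset.sum_add_distrib]
        rw [← h1', ← h2']
      | smul c a _ ha =>
        obtain ⟨M₁, h1⟩ := ha
        refine ⟨M₁, fun M hM => ?_⟩
        have h1' := h1 M hM
        simp only [map_smul, smul_assoc, ← Finset.smul_sum]
        rw [← h1']
    obtain ⟨M₀, h⟩ := this
    exact ⟨max m M₀, le_max_left _ _, h _ (le_max_right _ _)⟩
  obtain ⟨M, hmM, hM⟩ := hrep
  refine norm_le_of_e _ _ (norm_nonneg _) fun i => ?_
  rcases i with n | a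
  · rw [sum_apply_inl]
    split_ifs with h
    · rw [ev_apply]
      exact abs_apply_e_le g _
    · rw [abs_zero]
      exact norm_nonneg _
  · obtain ⟨a', ha'⟩ := exists_branch a m M
    have h1 : (∑ i ∈ Finset.range m, ev i g • ff i) (e (Sum.inr a)) = g (e (Sum.inr a')) := by
      conv_rhs => rw [hM]
      rw [sum_apply_inr, sum_apply_inr]
      have h2 : Finset.range m ⊆ Finset.range M := Finset.range_subset_range.2 hmM
      rw [← Finset.sum_subset h2 (f := fun i => ev i g * psi i (Sum.inr a'))]
      · refine Finset.sum_congr rfl fun i hi => ?_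
        have hi' := Finset.mem_range.1 hi
        have h5 : OnBranch a' i ↔ OnBranch a i := (ha' i (by omega)).trans (and_iff_right hi')
        by_cases hb : OnBranch a i
        · have hb' := h5.2 hb
          simp [psi, hb, hb']
        · have hb' : ¬ OnBranch a' i := fun h => hb (h5.1 h)
          simp [psi, hb, hb']
      · intro i hi hi'
        have h3 := ha' i (Finset.mem_range.1 hi)
        have h4 : ¬ i < m := fun h => hi' (Finset.mem_range.2 h)
        simp [psi, h3, h4]
    rw [h1]
    exact abs_apply_e_le g _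

lemma preAnn_eq_bot : preAnnihilator (closedSpan ff : Set (L1 Idx →L[ℝ] ℝ)) = ⊥ := by
  classical
  rw [eq_bot_iff]
  intro y hy
  have hy' : ∀ n, ff n y = 0 := fun n => hy _ (mem_closedSpan ff n)
  -- the branch coordinates vanish
  have hinr : ∀ a, y (Sum.inr a) = 0 := by
    intro a
    by_contra hne
    have hpos : 0 < |y (Sum.inr a)| := abs_pos.2 hne
    have hsum := summable_abs y
    obtain ⟨s₀, hs₀⟩ := (summable_iff_vanishing_norm.1 hsum) (|y (Sum.inr a)| / 2) (by positivity)
    set s : Finset Idx := insert (Sum.inr a) s₀ with hs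
    have hF1 : {n : ℕ | (Sum.inl n : Idx) ∈ s}.Finite :=
      s.finite_toSet.preimage Sum.inl_injective.injOn
    have hF2 : {b : Branch | (Sum.inr b : Idx) ∈ s ∧ b ≠ a}.Finite :=
      (s.finite_toSet.preimage Sum.inr_injective.injOn).subset fun b hb => hb.1
    have hF3 : (⋃ b ∈ {b : Branch | (Sum.inr b : Idx) ∈ s ∧ b ≠ a},
        {n | OnBranch a n ∧ OnBranch b n}).Finite :=
      hF2.biUnion fun b hb => finite_common a b (Ne.symm hb.2)
    obtain ⟨n, hn, hnF⟩ := (infinite_onBranch a).exists_notMem_finite (hF1.union hF3)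
    have hn1 : (Sum.inl n : Idx) ∉ s := fun h => hnF (Or.inl h)
    have hn2 : ∀ b, (Sum.inr b : Idx) ∈ s → b ≠ a → ¬ OnBranch b n := fun b hb hba hbn =>
      hnF (Or.inr (Set.mem_biUnion (show b ∈ {b : Branch | (Sum.inr b : Idx) ∈ s ∧ b ≠ a} from
        ⟨hb, hba⟩) ⟨hn, hbn⟩))
    have hn' : OnBranch a n := hn
    have hsumψ : HasSum (fun i => psi n i * y i) (ff n y) := by
      rw [ff, functional_apply]
      exact (summable_mul (psi n) 1 (abs_psi_le n) y).hasSum
    rw [hy' n] at hsumψ
    have hs1 : ∑ i ∈ s, psi n i * y i = y (Sum.inr a) := by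
      rw [Finset.sum_eq_single (Sum.inr a)]
      · simp [psi, hn']
      · rintro (m | b) hi hne'
        · have : n ≠ m := fun h => hn1 (by rw [h]; exact hi)
          simp [psi, this]
        · have hba : b ≠ a := fun h => hne' (by rw [h])
          simp [psi, hn2 b hi hba]
      · intro h
        exact absurd (Finset.mem_insert_self _ _) h
    have hlim : |(0 : ℝ) - y (Sum.inr a)| ≤ |y (Sum.inr a)| / 2 := by
      have h1 : Tendsto (fun t : Finset Idx => |∑ i ∈ t, psi n i * y i - y (Sum.inr a)|) atTop
          (𝓝 |0 - y (Sum.inr a)|) := (hsumψ.sub_const _).abs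
      refine le_of_tendsto h1 ?_
      filter_upwards [eventually_ge_atTop s] with t ht
      have h2 : ∑ i ∈ t, psi n i * y i =
          ∑ i ∈ t \ s, psi n i * y i + ∑ i ∈ s, psi n i * y i :=
        (Finset.sum_sdiff ht).symm
      rw [h2, hs1, add_sub_cancel_right]
      have h3 : Disjoint (t \ s) s₀ := by
        refine Finset.disjoint_left.2 fun i hi hi' => ?_
        exact (Finset.mem_sdiff.1 hi).2 (Finset.mem_insert_of_mem hi')
      have h4 := hs₀ _ h3
      rw [Real.norm_eq_abs, abs_of_nonneg (Finset.sum_nonneg fun _ _ => abs_nonneg _)] at h4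
      refine le_trans ?_ h4.le
      refine (Finset.abs_sum_le_sum_abs _ _).trans (Finset.sum_le_sum fun i _ => ?_)
      rw [abs_mul]
      calc |psi n i| * |y i| ≤ 1 * |y i| :=
            mul_le_mul_of_nonneg_right (abs_psi_le n i) (abs_nonneg _)
        _ = |y i| := one_mul _
    rw [zero_sub, abs_neg] at hlim
    linarith
  have hinl : ∀ n, y (Sum.inl n) = 0 := fun n => by
    rw [← ff_of_inr y hinr, hy']
  rw [Submodule.mem_bot]
  refine lp.ext ?_
  funext i
  rcases i with n | a
  · exact hinl n
  · exact hinr a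

/-- The coefficients used to show that the sequences are not equivalent. -/
noncomputable def cc (n : ℕ) : ℝ := 1 / ((Nat.log 2 (n + 1) : ℝ) + 1)

lemma cc_nonneg (n : ℕ) : 0 ≤ cc n := by
  unfold cc
  positivity

lemma cc_anti {m n : ℕ} (h : m ≤ n) : cc n ≤ cc m := by
  unfold cc
  have : Nat.log 2 (m + 1) ≤ Nat.log 2 (n + 1) := Nat.log_mono_right (by omega)
  have h' : (Nat.log 2 (m + 1) : ℝ) ≤ Nat.log 2 (n + 1) := by exact_mod_cast this
  gcongr

lemma cc_node (k : ℕ) : cc (node base k) = 1 / ((k : ℝ) + 2) := by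
  unfold cc
  rw [node_base, Nat.log_pow (by norm_num)]
  push_cast
  ring

lemma cc_tendsto : Tendsto cc atTop (𝓝 0) := by
  have h1 : Tendsto (fun k : ℕ => 1 / ((k : ℝ) + 2)) atTop (𝓝 0) := by
    have := tendsto_one_div_add_atTop_nhds_zero_nat (𝕜 := ℝ)
    refine squeeze_zero (fun k => by positivity) (fun k => ?_) this
    gcongr
    norm_num
  rw [Metric.tendsto_atTop]
  intro ε hε
  obtain ⟨K, hK⟩ := Metric.tendsto_atTop.1 h1 ε hε
  refine ⟨node base K, fun n hn => ?_⟩
  have h2 := hK K le_rfl
  rw [← cc_node] at h2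
  rw [Real.dist_eq, sub_zero, abs_of_nonneg (cc_nonneg _)] at h2 ⊢
  exact lt_of_le_of_lt (cc_anti hn) h2

/-- The restrictions of the functionals to the closed span of the `x n`. -/
noncomputable def restr (n : ℕ) : closedSpan xx →L[ℝ] ℝ := (ff n).comp (closedSpan xx).subtypeL

lemma converges_restr : SeriesConverges cc restr := by
  -- the tail functionals
  let D : ℕ → L1 Idx →L[ℝ] ℝ := fun n => functional
    (fun i => Sum.elim (fun m => if m < n then 0 else cc m) (fun _ => 0) i) (cc n) (by
      rintro (m | a)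
      · simp only [Sum.elim_inl]
        split_ifs with h
        · rw [abs_zero]; exact cc_nonneg _
        · rw [abs_of_nonneg (cc_nonneg _)]; exact cc_anti (not_lt.1 h)
      · simp only [Sum.elim_inr, abs_zero]
        exact cc_nonneg _)
  have hDe : ∀ n i, D n (e i) = Sum.elim (fun m => if m < n then 0 else cc m) (fun _ => 0) i :=
    fun n i => functional_e _ _ _ _
  have hD : ∀ n, ‖D n‖ ≤ cc n := by
    intro n
    refine norm_le_of_e _ _ (cc_nonneg _) ?_
    rintro (m | a)
    · rw [hDe]
      simp only [Sum.elim_inl]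
      split_ifs with h
      · rw [abs_zero]; exact cc_nonneg _
      · rw [abs_of_nonneg (cc_nonneg _)]; exact cc_anti (not_lt.1 h)
    · rw [hDe]
      simp only [Sum.elim_inr, abs_zero]
      exact cc_nonneg _
  refine ⟨(D 0).comp (closedSpan xx).subtypeL, ?_⟩
  rw [tendsto_iff_norm_sub_tendsto_zero]
  refine squeeze_zero (fun _ => ContinuousLinearMap.opNorm_nonneg _) (fun n => ?_) cc_tendsto
  -- the difference is the restriction of the tail
  have hkey : ∑ i ∈ Finset.range n, cc i • restr i - (D 0).comp (closedSpan xx).subtypeL =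
      -((D n).comp (closedSpan xx).subtypeL) := by
    -- coordinate functionals
    let P : ℕ → L1 Idx →L[ℝ] ℝ := fun m => functional
      (fun i => Sum.elim (fun k => if m = k then 1 else 0) (fun _ => 0) i) 1 (by
        rintro (k | a)
        · simp only [Sum.elim_inl]
          split_ifs <;> simp
        · simp)
    have hP : ∀ m (y : L1 Idx), P m y = y (Sum.inl m) := by
      intro m y
      rw [functional_apply, tsum_eq_single (Sum.inl m)]
      · simp
      · rintro (k | a) hj
        · have : m ≠ k := fun h => hj (by rw [h])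
          simp [this]
        · simp
    have h1 : D 0 = D n + ∑ i ∈ Finset.range n, cc i • P i := by
      refine ext_e _ _ fun i => ?_
      rw [add_apply, sum_apply, hDe, hDe]
      simp only [smul_apply, hP, smul_eq_mul]
      rcases i with m | a
      · simp only [Sum.elim_inl]
        have h2 : ∀ i ∈ Finset.range n, cc i * (e (Sum.inl m) : L1 Idx) (Sum.inl i) =
            if i = m then cc i else 0 := by
          intro i _
          by_cases h : i = m
          · rw [h, e_self]; simp
          · rw [e_ne (by simpa using h)]; simp [h]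
        rw [Finset.sum_congr rfl h2, Finset.sum_ite_eq' (Finset.range n) m]
        by_cases h : m < n
        · simp [h]
        · simp [h]
      · simp only [Sum.elim_inr]
        rw [Finset.sum_eq_zero]
        · simp
        · intro i _
          rw [e_ne (by simp), mul_zero]
    ext y
    have h2 : ∀ i, restr i y = P i (y : L1 Idx) := by
      intro i
      rw [hP]
      exact ff_of_inr _ (inr_eq_zero _ y.2) i
    have h3 : (D 0) (y : L1 Idx) = D n (y : L1 Idx) + ∑ i ∈ Finset.range n, cc i * P i (y : L1 Idx) := by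
      rw [h1, add_apply, sum_apply]
      rfl
    rw [sub_apply, sum_apply, neg_apply]
    simp only [smul_apply, h2, smul_eq_mul]
    change _ - D 0 (y : L1 Idx) = - D n (y : L1 Idx)
    rw [h3]
    ring
  rw [hkey]
  refine ContinuousLinearMap.opNorm_le_bound _ (cc_nonneg _) fun y => ?_
  change ‖-(D n (y : L1 Idx))‖ ≤ cc n * ‖(y : L1 Idx)‖
  rw [norm_neg]
  exact ((D n).le_opNorm _).trans (mul_le_mul_of_nonneg_right (hD n) (norm_nonneg _))

lemma diverges_ff : ¬ SeriesConverges cc ff := by
  classical
  rintro ⟨g, hg⟩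
  have h1 : Tendsto (fun n => (∑ i ∈ Finset.range n, cc i • ff i) (e (Sum.inr base))) atTop
      (𝓝 (g (e (Sum.inr base)))) :=
    ((ContinuousLinearMap.apply ℝ ℝ (e (Sum.inr base) : L1 Idx)).continuous.tendsto _).comp hg
  have h2 : Tendsto (fun K : ℕ => 2 ^ K) atTop atTop := tendsto_pow_atTop_atTop_of_one_lt (by norm_num)
  have h3 := h1.comp h2
  have h4 : Tendsto (fun K : ℕ => ∑ k ∈ Finset.range K, 1 / ((k : ℝ) + 2)) atTop atTop := by
    have h5 := Real.tendsto_sum_range_one_div_nat_succ_atTop
    have h6 : ∀ K : ℕ, ∑ k ∈ Finset.range (K + 1), 1 / ((k : ℝ) + 1) =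
        1 + ∑ k ∈ Finset.range K, 1 / ((k : ℝ) + 2) := by
      intro K
      rw [Finset.sum_range_succ']
      simp only [Nat.cast_zero, zero_add, div_one, Nat.cast_add, Nat.cast_one]
      rw [add_comm]
      congr 1
      refine Finset.sum_congr rfl fun k _ => ?_
      ring
    have h7 := (tendsto_add_atTop_iff_nat 1).2 h5
    simp only [h6] at h7
    have h7' := tendsto_atTop_add_const_left _ (-1 : ℝ) h7
    refine h7'.congr fun K => ?_
    ring
  have h8 : ∀ K, ∑ k ∈ Finset.range K, 1 / ((k : ℝ) + 2) ≤
      (∑ i ∈ Finset.range (2 ^ K), cc i • ff i) (e (Sum.inr base)) := by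
    intro K
    rw [sum_apply_inr]
    have h9 : ∑ k ∈ Finset.range K, 1 / ((k : ℝ) + 2) =
        ∑ i ∈ (Finset.range K).image (node base), cc i * psi i (Sum.inr base) := by
      rw [Finset.sum_image fun a _ b _ h => (node_strictMono base).injective h]
      refine Finset.sum_congr rfl fun k _ => ?_
      have : OnBranch base (node base k) := ⟨k, rfl⟩
      rw [cc_node]
      simp [psi, this]
    rw [h9]
    refine Finset.sum_le_sum_of_subset_of_nonneg ?_ ?_
    · intro i hi
      obtain ⟨k, hk, rfl⟩ := Finset.mem_image.1 hi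
      have hk' := Finset.mem_range.1 hk
      have h10 := node_base k
      have h11 : 2 ^ (k + 1) ≤ 2 ^ K := Nat.pow_le_pow_right (by norm_num) (by omega)
      exact Finset.mem_range.2 (by omega)
    · intro i _ _
      refine mul_nonneg (cc_nonneg _) ?_
      simp only [psi]
      split_ifs <;> norm_num
  have h12 := tendsto_atTop_mono h8 h4
  exact not_tendsto_nhds_of_tendsto_atTop h12 _ h3

/-- **There is a Banach space `E` with a biorthogonal system `(x n, f n)`, both sequences basic,
with `[x n] + [f n]_⊥` closed, for which `f` is not equivalent to the sequence of coefficient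
functionals of the basis `x` of `[x n]`.** -/
theorem result : ∃ (E : Type) (_ : NormedAddCommGroup E) (_ : NormedSpace ℝ E)
    (_ : CompleteSpace E) (x : ℕ → E) (f : ℕ → E →L[ℝ] ℝ),
    (∀ i j, f i (x j) = if i = j then 1 else 0) ∧ IsBasic x ∧ IsBasic f ∧
    IsClosed ((closedSpan x ⊔ preAnnihilator (closedSpan f : Set (E →L[ℝ] ℝ)) :
      Submodule ℝ E) : Set E) ∧
    ¬ Equivalent f (fun n => (f n).comp (closedSpan x).subtypeL) := by
  refine ⟨L1 Idx, inferInstance, inferInstance, inferInstance, xx, ff, biorth, isBasic_xx,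
    isBasic_ff, ?_, fun h => ?_⟩
  · rw [preAnn_eq_bot, sup_bot_eq]
    exact Submodule.isClosed_topologicalClosure _
  · exact diverges_ff ((h cc).2 converges_restr)

end Pool.Agent.Results.MP_68f07c_an.TreeCounterexample
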